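import Pool.Agent.TH377.LocG.Abs

/-!
# The Kummer argument for conjugate functions
-/

set_option autoImplicit false
set_option maxHeartbeats 400000

namespace Pool.Agent.TH377.NC

open Pool.Agent.W620.SC Pool.Agent.W623.SecC Pool.Agent.TH120.Sec Pool.Agent.TH377.LocG

variable {k A M : Type*} [Field k] [Field A] [Field M] [Algebra k A] (D : TDat k A M)

/-- **The main argument**, for functions `lam i` that are permuted like the `θ i`. -/
theorem absL [CharZero k] [IsAlgClosed A] [Algebra.IsAlgebraic k A] (ℓ : ℕ) (hℓ0 : 0 < ℓ)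
    {X : Type*} [Fintype X] (θ : X → A) (e : X → ℕ)
    {Y : Type*} (cl : X → Y) (hp : ∃ b : k, D.p = algebraMap k A b)
    (htr : ∀ x x', cl x = cl x' → ∃ φ π, GoodAut θ e cl D.S D.V φ π ∧ π x = x')
    (hcard : ∀ x, Nat.gcd 2 ℓ * ℓ ∣ Nat.card {x' // cl x' = cl x})
    (lam : X → M) (hne0 : ∀ i, lam i ≠ 0) (hmem : ∀ i, lam i ∈ D.RS)
    (hG : ∀ φ π, GoodAut θ e cl D.S D.V φ π → ∀ i, D.s φ (lam i) = lam (π i))
    (y : M) (hy : ∀ σ, D.s σ y = y) (c : A) (hcS : c ∈ D.S) (m : ℤ)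
    (hm : ¬ (ℓ : ℤ) ∣ m) (hc : IsU D.V (c / D.p ^ m))
    (hxy : D.ι c * y ^ ℓ = ∏ i, lam i)
    (hroot : ∀ i i', ∃ α : M, α ^ ℓ = lam i / lam i') : False := by
  classical
  have : NeZero ℓ := ⟨hℓ0.ne'⟩
  have hyR : y ∈ D.RS := fun σ _ => hy σ
  have hprod0 : ∏ i, lam i ≠ 0 := Finset.prod_ne_zero_iff.2 fun i _ => hne0 i
  have hy0 : y ≠ 0 := by
    rintro rfl
    rw [zero_pow hℓ0.ne', mul_zero] at hxy
    exact hprod0 hxy.symm
  apply hm
  rw [← ZMod.intCast_zmod_eq_zero_iff_dvd]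
  rcases isEmpty_or_nonempty X with hX | ⟨⟨i0⟩⟩
  · have h1 : D.Par ℓ (D.ι c * y ^ ℓ) (m + 0) :=
      (TDat.Par.const hcS hc).mul (TDat.Par.powℓ hyR hy0)
    have h2 : D.Par ℓ (D.ι c * y ^ ℓ) 0 := by
      rw [hxy, Fintype.prod_empty]
      exact TDat.Par.one
    have h3 := TDat.Par.unique hℓ0 h1 h2
    rw [add_zero, Int.cast_zero] at h3
    exact h3
  · have hpar : ∀ i i', ∃ j, D.Par ℓ (lam i / lam i') j := by
      intro i i'
      obtain ⟨α, hα⟩ := hroot i i'
      exact TDat.exists_par hℓ0 (div_mem (hmem i) (hmem i')) (div_ne_zero (hne0 i) (hne0 i')) hα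
    choose N hN using hpar
    have hstep : ∀ (φ : A ≃ₐ[k] A) (π : Equiv.Perm X), GoodAut θ e cl D.S D.V φ π →
        ∀ i i', ((N (π i) (π i') : ZMod ℓ)) = N i i' := by
      intro φ π hgood i i'
      have hG' := hG φ π hgood
      obtain ⟨hφV, hφS, hπ, _, _⟩ := hgood
      obtain ⟨b, hb⟩ := hp
      let D' : TDat k A M := { D with
        φ := φ
        φp := by rw [hb]; exact φ.commutes b
        φV := hφV
        φS := hφS }
      have hN' : D'.Par ℓ (lam i / lam i') (N i i') := hN i i'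
      have h1 := hN'.map_φ
      have h2 : D'.s D'.φ (lam i / lam i') = lam (π i) / lam (π i') := by
        change D.s φ _ = _
        rw [map_div₀, hG', hG']
      rw [h2] at h1
      have h1' : D.Par ℓ (lam (π i) / lam (π i')) (N i i') := h1
      exact TDat.Par.unique hℓ0 (hN (π i) (π i')) h1'
    have hadd : ∀ i i' i'', ((N i i' : ZMod ℓ)) + N i' i'' = N i i'' := by
      intro i i' i''
      have h1 := (hN i i').mul (hN i' i'')
      rw [div_mul_div_cancel₀ (hne0 i')] at h1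
      have h2 := TDat.Par.unique hℓ0 (hN i i'') h1
      rw [h2, Int.cast_add]
    -- the classes
    let cls : X → Finset X := fun x => Finset.univ.filter fun x' => cl x' = cl x
    have hclmem : ∀ x x', x' ∈ cls x ↔ cl x' = cl x := by
      intro x x'
      exact ⟨fun h => (Finset.mem_filter.1 h).2, fun h => Finset.mem_filter.2 ⟨Finset.mem_univ _, h⟩⟩
    have hclscard : ∀ x, Nat.gcd 2 ℓ * ℓ ∣ (cls x).card := by
      intro x
      have h1 := hcard x
      rw [Nat.card_eq_fintype_card, Fintype.card_subtype] at h1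
      exact h1
    have hclass : ∀ x, ∑ i ∈ cls x, ((N i i0 : ZMod ℓ)) = 0 := by
      intro x
      refine sum_class ℓ (cls x) (hclscard x) (fun i i' => (N i i' : ZMod ℓ)) hadd ?_ i0
      intro z hz z' hz'
      obtain ⟨φ, π, hg, hπz⟩ := htr z z' (((hclmem _ _).1 hz).trans ((hclmem _ _).1 hz').symm)
      refine ⟨π, ?_, hπz, fun i i' => hstep φ π hg i i'⟩
      intro i
      rw [hclmem, hclmem, hg.2.2.2.2]
    have hfib : ∀ F : X → ZMod ℓ, (∀ x, ∑ i ∈ cls x, F i = 0) → ∑ i, F i = 0 := by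
      intro F hF
      rw [← Finset.sum_fiberwise_of_maps_to (s := Finset.univ) (t := Finset.univ.image cl)
        (g := cl) (fun i _ => Finset.mem_image_of_mem _ (Finset.mem_univ i))]
      refine Finset.sum_eq_zero fun y hy => ?_
      obtain ⟨x, -, rfl⟩ := Finset.mem_image.1 hy
      exact hF x
    have hsum : ∑ i, (N i i0 : ZMod ℓ) = 0 := hfib _ hclass
    have hdeg : ((Fintype.card X : ℕ) : ZMod ℓ) = 0 := by
      have h1 : ∑ _i : X, (1 : ZMod ℓ) = 0 := by
        refine hfib _ fun x => ?_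
        rw [Finset.sum_const, nsmul_eq_mul, mul_one,
          (ZMod.natCast_eq_zero_iff _ _).2 ((Dvd.intro_left _ rfl).trans (hclscard x))]
      rw [Finset.sum_const, nsmul_eq_mul, mul_one] at h1
      exact h1
    rw [ZMod.natCast_eq_zero_iff] at hdeg
    obtain ⟨d, hd⟩ := hdeg
    have h1 : D.Par ℓ (∏ i, (lam i / lam i0) ^ 1) (∑ i, ((1 : ℕ) : ℤ) * N i i0) :=
      TDat.Par.prod _ _ _ fun i _ => (hN i i0).pow 1
    have h2 : ∏ i, (lam i / lam i0) ^ 1 = D.ι c * (y / lam i0 ^ d) ^ ℓ := by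
      have h3 : ∏ i, (lam i / lam i0) ^ 1 = (∏ i, lam i) / lam i0 ^ Fintype.card X := by
        simp only [pow_one]
        rw [Finset.prod_div_distrib, Finset.prod_const, Finset.card_univ]
      rw [h3, ← hxy, hd, div_pow, ← pow_mul, mul_comm d ℓ, mul_div_assoc]
    have h4 : D.Par ℓ (∏ i, (lam i / lam i0) ^ 1) (m + 0) := by
      rw [h2]
      exact (TDat.Par.const hcS hc).mul (TDat.Par.powℓ (div_mem hyR (pow_mem (hmem i0) d))
        (div_ne_zero hy0 (pow_ne_zero _ (hne0 i0))))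
    have h5 := TDat.Par.unique hℓ0 h4 h1
    rw [add_zero, Int.cast_sum] at h5
    rw [h5, ← hsum]
    refine Finset.sum_congr rfl fun i _ => ?_
    push_cast
    rw [one_mul]

end Pool.Agent.TH377.NC
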