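import Pool.Agent.TH377.NC.NF
import Pool.Agent.TH120.Sec.FamSupply

/-!
# Embeddings and roots
-/

set_option autoImplicit false
set_option maxHeartbeats 400000
set_option linter.unusedSectionVars false

namespace Pool.Agent.TH377.NC

open Polynomial NumberField IsDedekindDomain Pool.Agent.TH120.Sec
open scoped Matrix

universe u v w x

/-- an integral generator -/
theorem exists_gen (K : Type u) [Field K] [NumberField K] (E : Type x) [Field E] [Algebra K E]
    [FiniteDimensional K E] :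
    ∃ (pb : PowerBasis K E) (g : (𝓞 K)[X]), g.Monic ∧
      g.map (algebraMap (𝓞 K) K) = minpoly K pb.gen ∧ g.natDegree = Module.finrank K E := by
  obtain ⟨α, hα⟩ := Field.exists_primitive_element K E
  have halg : IsAlgebraic (𝓞 K) α := by
    have h1 : IsAlgebraic K α := Algebra.IsAlgebraic.isAlgebraic α
    exact (IsFractionRing.isAlgebraic_iff (𝓞 K) K E).2 h1
  obtain ⟨y, hy, hint⟩ := IsAlgebraic.exists_integral_multiple halg
  set θ : E := y • α with hθ
  have hyK : algebraMap (𝓞 K) K y ≠ 0 := by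
    rwa [Ne, map_eq_zero_iff _ (IsFractionRing.injective (𝓞 K) K)]
  have hθα : θ = algebraMap K E (algebraMap (𝓞 K) K y) * α := by
    rw [hθ, Algebra.smul_def, IsScalarTower.algebraMap_apply (𝓞 K) K E]
  have hyE : algebraMap K E (algebraMap (𝓞 K) K y) ≠ 0 := (_root_.map_ne_zero _).2 hyK
  have htop : IntermediateField.adjoin K {θ} = ⊤ := by
    rw [eq_top_iff, ← hα, IntermediateField.adjoin_le_iff, Set.singleton_subset_iff]
    have h1 : α = algebraMap K E (algebraMap (𝓞 K) K y)⁻¹ * θ := by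
      rw [hθα, ← mul_assoc, ← map_mul, inv_mul_cancel₀ hyK, map_one, one_mul]
    rw [h1]
    exact mul_mem (IntermediateField.algebraMap_mem _ _)
      (IntermediateField.mem_adjoin_simple_self K θ)
  have hθK : IsIntegral K θ := Algebra.IsIntegral.isIntegral θ
  have htop' : Algebra.adjoin K {θ} = ⊤ := by
    rw [← IntermediateField.adjoin_simple_toSubalgebra_of_isAlgebraic hθK.isAlgebraic, htop,
      IntermediateField.top_toSubalgebra]
  have hmin : minpoly K θ = (minpoly (𝓞 K) θ).map (algebraMap (𝓞 K) K) :=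
    minpoly.isIntegrallyClosed_eq_field_fractions' K hint
  refine ⟨PowerBasis.ofAdjoinEqTop hθK htop', minpoly (𝓞 K) θ, minpoly.monic hint, ?_, ?_⟩
  · rw [PowerBasis.ofAdjoinEqTop_gen]
    exact hmin.symm
  · rw [(PowerBasis.ofAdjoinEqTop hθK htop').finrank, PowerBasis.ofAdjoinEqTop_dim, hmin,
      (minpoly.monic hint).natDegree_map]

section

variable {K : Type u} [Field K] [CharZero K] {E : Type x} [Field E] [Algebra K E]
    [FiniteDimensional K E] (pb : PowerBasis K E) {B : Type w} [Field B] [Algebra K B]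

/-- products over embeddings are products over roots -/
theorem prod_emb [Fintype (E →ₐ[K] B)] [IsAlgClosed B] {M : Type*} [CommMonoid M] (F : B → M) :
    ∏ σ : E →ₐ[K] B, F (σ pb.gen) = (((minpoly K pb.gen).aroots B).map F).prod := by
  classical
  have hsep : IsSeparable K pb.gen := Algebra.IsSeparable.isSeparable K _
  have hnd : ((minpoly K pb.gen).aroots B).Nodup := nodup_roots (.map hsep)
  rw [Fintype.prod_equiv pb.liftEquiv' (fun σ => F (σ pb.gen)) (fun x => F x) ?_]
  · rw [Finset.prod_mem_multiset _ (fun x => F x) F (fun _ => rfl), Finset.prod_eq_multiset_prod,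
      Multiset.toFinset_val, Multiset.dedup_eq_self.2 hnd]
  · intro σ
    rw [PowerBasis.liftEquiv'_apply_coe]

lemma emb_val (σ : E →ₐ[K] B) (P : K[X]) : σ (aeval pb.gen P) = aeval (σ pb.gen) P :=
  (aeval_algHom_apply σ pb.gen P).symm

/-- the embedding of a root -/
lemma exists_emb (r : B) (hr : aeval r (minpoly K pb.gen) = 0) :
    ∃ σ : E →ₐ[K] B, σ pb.gen = r :=
  ⟨pb.lift r hr, pb.lift_gen r hr⟩

/-- transversality over any algebraically closed field -/
theorem nd_lift {R : Type v} [Field R] [Algebra K R] [Algebra R B] [IsScalarTower K R B]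
    [IsAlgClosed B] (P : Fin 3 → K[X]) (Q : MvPolynomial (Fin 3) K)
    (h : ∀ σ τ : E →ₐ[K] AlgebraicClosure K, σ ≠ τ → MvPolynomial.aeval
      ((fun j => σ (aeval pb.gen (P j))) ⨯₃ (fun j => τ (aeval pb.gen (P j)))) Q ≠ 0)
    (θ θ' : B) (hθ : aeval θ (minpoly K pb.gen) = 0) (hθ' : aeval θ' (minpoly K pb.gen) = 0)
    (hne : θ ≠ θ') :
    MvPolynomial.eval₂ (algebraMap R B) ((fun j => aeval θ ((P j).map (algebraMap K R))) ⨯₃
      (fun j => aeval θ' ((P j).map (algebraMap K R))))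
      (MvPolynomial.map (algebraMap K R) Q) ≠ 0 := by
  classical
  let ι : AlgebraicClosure K →ₐ[K] B := IsAlgClosed.lift
  have hroot : ∀ t : B, aeval t (minpoly K pb.gen) = 0 → ∃ r : AlgebraicClosure K,
      aeval r (minpoly K pb.gen) = 0 ∧ ι r = t := by
    intro t ht
    have hsp : ((minpoly K pb.gen).map (algebraMap K (AlgebraicClosure K))).Splits :=
      IsAlgClosed.splits _
    have h0 : (minpoly K pb.gen).map (algebraMap K B) ≠ 0 :=
      Polynomial.map_ne_zero (minpoly.ne_zero pb.isIntegral_gen)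
    have h1 : t ∈ ((minpoly K pb.gen).map (algebraMap K B)).roots := by
      rw [mem_roots h0, IsRoot.def, eval_map_algebraMap]
      exact ht
    have h2 : (minpoly K pb.gen).map (algebraMap K B) =
        ((minpoly K pb.gen).map (algebraMap K (AlgebraicClosure K))).map
          (ι : AlgebraicClosure K →+* B) := by
      rw [Polynomial.map_map, AlgHom.comp_algebraMap]
    rw [h2, hsp.roots_map, Multiset.mem_map] at h1
    obtain ⟨r, hr, hrt⟩ := h1
    refine ⟨r, ?_, hrt⟩
    rw [mem_roots (Polynomial.map_ne_zero (minpoly.ne_zero pb.isIntegral_gen)), IsRoot.def,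
      eval_map_algebraMap] at hr
    exact hr
  obtain ⟨r, hr, hrθ⟩ := hroot θ hθ
  obtain ⟨r', hr', hrθ'⟩ := hroot θ' hθ'
  obtain ⟨σ, hσ⟩ := exists_emb pb r hr
  obtain ⟨τ, hτ⟩ := exists_emb pb r' hr'
  have hστ : σ ≠ τ := by
    rintro rfl
    apply hne
    rw [← hrθ, ← hrθ', ← hσ, ← hτ]
  have h1 := h σ τ hστ
  intro h2
  apply h1
  apply (ι : AlgebraicClosure K →+* B).injective
  rw [map_zero, MvPolynomial.aeval_def, MvPolynomial.hom_eval₂]
  rw [MvPolynomial.eval₂_map, ← IsScalarTower.algebraMap_eq K R B] at h2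
  rw [AlgHom.comp_algebraMap]
  convert h2 using 2
  funext k
  have e1 := map_cross (ι : AlgebraicClosure K →+* B) (fun j => σ (aeval pb.gen (P j)))
    (fun j => τ (aeval pb.gen (P j))) k
  have e2 : ∀ (ρ : E →ₐ[K] AlgebraicClosure K) (s : B), ι (ρ pb.gen) = s →
      (fun j => (ι : AlgebraicClosure K →+* B) (ρ (aeval pb.gen (P j)))) =
        fun j => aeval s ((P j).map (algebraMap K R)) := by
    intro ρ s hs
    funext j
    change ι (ρ (aeval pb.gen (P j))) = _
    rw [aeval_map_algebraMap, emb_val, ← aeval_algHom_apply, hs]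
  rw [e2 σ θ (by rw [hσ, hrθ]), e2 τ θ' (by rw [hτ, hrθ'])] at e1
  exact e1.symm

end

/-- the family for the density theorem -/
theorem spc_of_gen {K : Type u} [Field K] [NumberField K] {E : Type x} [Field E] [Algebra K E]
    [FiniteDimensional K E] (pb : PowerBasis K E) (g : (𝓞 K)[X]) (hg : g.Monic)
    (hgK : g.map (algebraMap (𝓞 K) K) = minpoly K pb.gen) (N : ℕ) (hN : 3 ≤ N)
    (σ : AlgebraicClosure K ≃ₐ[K] AlgebraicClosure K)
    (hσ : ∀ (τ : E →ₐ[K] AlgebraicClosure K) (m : ℕ), (∀ z, (σ ^ m) (τ z) = τ z) → N ∣ m) :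
    Spc N (X : (𝓞 K)[X]) (g.map C) 0 σ := by
  have hcomp : (evC (0 : AlgebraicClosure K)).comp (C : 𝓞 K →+* (𝓞 K)[X]) =
      (algebraMap K (AlgebraicClosure K)).comp (algebraMap (𝓞 K) K) := by
    ext z
    simp [evC]
  have hmap : (g.map (C : 𝓞 K →+* (𝓞 K)[X])).map (evC (0 : AlgebraicClosure K)) =
      (minpoly K pb.gen).map (algebraMap K (AlgebraicClosure K)) := by
    rw [Polynomial.map_map, hcomp, ← Polynomial.map_map, hgK]
  have hcyc : ∀ ρ, ((g.map (C : 𝓞 K →+* (𝓞 K)[X])).map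
      (evC (0 : AlgebraicClosure K))).eval ρ = 0 → ∀ m : ℕ, (σ ^ m) ρ = ρ → N ∣ m := by
    intro ρ hρ m hm
    rw [hmap, eval_map_algebraMap] at hρ
    obtain ⟨τ, hτ⟩ := exists_emb pb ρ hρ
    refine hσ τ m fun z => ?_
    obtain ⟨P, rfl⟩ := pb.exists_eq_aeval' z
    rw [emb_val, hτ]
    have h1 := aeval_algHom_apply ((σ ^ m : AlgebraicClosure K ≃ₐ[K] AlgebraicClosure K) :
      AlgebraicClosure K →ₐ[K] AlgebraicClosure K) ρ P
    have h2 : ((σ ^ m : AlgebraicClosure K ≃ₐ[K] AlgebraicClosure K) :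
      AlgebraicClosure K →ₐ[K] AlgebraicClosure K) ρ = ρ := hm
    rw [h2] at h1
    exact h1.symm
  refine ⟨by simp [evC], by simp [evC], ?_, ?_, map_zero σ, ?_, ?_⟩
  · rw [(hg.map _).leadingCoeff, map_one]
    exact one_ne_zero
  · rw [hmap]
    have hsep : (minpoly K pb.gen).Separable := Algebra.IsSeparable.isSeparable K pb.gen
    exact hsep.map
  · intro ρ hρ h
    have h1 := hcyc ρ hρ 1 (by rw [pow_one]; exact h)
    have h2 := Nat.le_of_dvd one_pos h1
    omega
  · intro _ m hm ρ hρ h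
    refine hm (hcyc ρ hρ m ?_)
    rw [AlgEquiv.coe_pow]
    exact h

/-- density zero for one-parameter families, in the form for vectors of length one -/
theorem fam_dz1 {K : Type u} [Field K] [NumberField K] (ℓ : ℕ) (g : (𝓞 K)[X])
    (H : (𝓞 K)[X][X]) (θ : AlgebraicClosure K)
    (σ : AlgebraicClosure K ≃ₐ[K] AlgebraicClosure K) (hs : Spc ℓ g H θ σ)
    (E : Set (𝓞 K)) (hE : ∀ t ∈ E, ∀ v : HeightOneSpectrum (𝓞 K),
      ¬ (g.eval t ∈ v.asIdeal ∧ g.eval t ∉ v.asIdeal ^ 2 ∧
        Loc v ℓ H.natDegree (H.map (evalRingHom t)))) :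
    DZ 1 {f : Fin 1 → 𝓞 K | f 0 ∈ E} := by
  intro ε hε
  obtain ⟨I, hI, h1⟩ := fam_dz ℓ g H θ σ hs E hE ε hε
  refine ⟨I, hI, ?_⟩
  rw [pow_one]
  refine le_trans ?_ h1
  have hfin : Finite (𝓞 K ⧸ I) := Ideal.finiteQuotientOfFreeOfNeBot _ hI
  have hsub : red I 1 '' {f : Fin 1 → 𝓞 K | f 0 ∈ E} ⊆
      (fun x : 𝓞 K ⧸ I => fun _ : Fin 1 => x) '' ((Ideal.Quotient.mk I) '' E) := by
    rintro _ ⟨f, hf, rfl⟩
    refine ⟨_, ⟨f 0, hf, rfl⟩, ?_⟩
    funext i
    rw [Subsingleton.elim i 0]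
    rfl
  refine (Nat.cast_le.2 (Set.ncard_le_ncard hsub (Set.toFinite _))).trans ?_
  exact_mod_cast Set.ncard_image_le (Set.toFinite _)

end Pool.Agent.TH377.NC
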