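import Pool.Agent.TH377.LocG.Abs

/-!
# Conjugate linear forms at the places of a plane curve
-/

set_option autoImplicit false
set_option maxHeartbeats 400000

namespace Pool.Agent.TH377.NC

open Pool.Agent.W620.SC Pool.Agent.W623.SecC Pool.Agent.TH120.Sec
open scoped Matrix

/-- values of a form at multiples of a vector -/
lemma eval_smul {R S : Type*} [CommRing R] [CommRing S] (g : R →+* S)
    (Q : MvPolynomial (Fin 3) R) (e : ℕ) (hQ : Q.IsHomogeneous e) (c : S) (P : Fin 3 → S) :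
    MvPolynomial.eval₂ g (fun j => c * P j) Q = c ^ e * MvPolynomial.eval₂ g P Q := by
  rw [MvPolynomial.eval₂_eq', MvPolynomial.eval₂_eq', Finset.mul_sum]
  refine Finset.sum_congr rfl fun d hd => ?_
  have h1 : ∑ i, d i = e := by
    have h2 := hQ (MvPolynomial.mem_support_iff.1 hd)
    rw [← h2, Finsupp.weight_apply, Finsupp.sum_fintype _ _ (fun i => by simp)]
    exact Finset.sum_congr rfl fun i _ => by simp
  simp only [mul_pow, Finset.prod_mul_distrib, Finset.prod_pow_eq_pow_sum, h1]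
  ring

/-- the cross product of two vectors is proportional to the vectors orthogonal to both -/
lemma cross_eq {R : Type*} [CommRing R] (α β u : Fin 3 → R) (j k : Fin 3) :
    ∃ a b : R, u j * (α ⨯₃ β) k - u k * (α ⨯₃ β) j =
      a * (∑ i, β i * u i) - b * (∑ i, α i * u i) := by
  simp only [cross_apply, Fin.sum_univ_three]
  fin_cases j <;> fin_cases k
  · exact ⟨0, 0, by simp⟩
  · exact ⟨α 2, β 2, by simp; ring⟩
  · exact ⟨-α 1, -β 1, by simp; ring⟩
  · exact ⟨-α 2, -β 2, by simp; ring⟩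
  · exact ⟨0, 0, by simp⟩
  · exact ⟨α 0, β 0, by simp; ring⟩
  · exact ⟨α 1, β 1, by simp; ring⟩
  · exact ⟨-α 0, -β 0, by simp; ring⟩
  · exact ⟨0, 0, by simp⟩

lemma map_cross {R S : Type*} [CommRing R] [CommRing S] (j : R →+* S) (α β : Fin 3 → R)
    (k : Fin 3) : ((fun i => j (α i)) ⨯₃ (fun i => j (β i))) k = j ((α ⨯₃ β) k) := by
  simp only [cross_apply]
  fin_cases k <;> simp

/-- a common zero of two conjugate forms is not a zero of `Q` -/
lemma common_zero {R κ A : Type*} [Field κ] [Field A] [CommRing R] (j : A →+* κ)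
    (g : R →+* A) (Q : MvPolynomial (Fin 3) R) (e : ℕ) (hQ : Q.IsHomogeneous e)
    (α β : Fin 3 → A) (hnd : MvPolynomial.eval₂ g (α ⨯₃ β) Q ≠ 0) (u : Fin 3 → κ)
    (hu : u ≠ 0) (hα : ∑ i, j (α i) * u i = 0) (hβ : ∑ i, j (β i) * u i = 0) :
    MvPolynomial.eval₂ (j.comp g) u Q ≠ 0 := by
  intro h0
  obtain ⟨k0, hk0⟩ := Function.ne_iff.1 hu
  have hk0' : u k0 ≠ 0 := hk0
  have h1 : ∀ k, j ((α ⨯₃ β) k) = (j ((α ⨯₃ β) k0) / u k0) * u k := by
    intro k
    obtain ⟨a, b, hab⟩ := cross_eq (fun i => j (α i)) (fun i => j (β i)) u k0 k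
    rw [hα, hβ, mul_zero, mul_zero, sub_zero, map_cross, map_cross, sub_eq_zero] at hab
    rw [div_mul_eq_mul_div, eq_div_iff hk0']
    linear_combination hab
  apply hnd
  apply j.injective
  rw [map_zero, MvPolynomial.hom_eval₂]
  have h2 : (fun k => j ((α ⨯₃ β) k)) = fun k => (j ((α ⨯₃ β) k0) / u k0) * u k := funext h1
  have h3 : MvPolynomial.eval₂ (j.comp g) (fun k => j ((α ⨯₃ β) k)) Q = 0 := by
    rw [h2, eval_smul _ _ e hQ, h0, mul_zero]
  exact h3

/-- at a place, at most one of the conjugate forms vanishes -/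
lemma two_units {R Ω A : Type*} [Field Ω] [Field A] [CommRing R] (j : A →+* Ω)
    (W : ValuationSubring Ω) (hW : ∀ c, j c ∈ W)
    (g : R →+* A) (Q : MvPolynomial (Fin 3) R) (e : ℕ) (hQ : Q.IsHomogeneous e)
    (α β : Fin 3 → A) (hnd : MvPolynomial.eval₂ g (α ⨯₃ β) Q ≠ 0) (u : Fin 3 → Ω)
    (hu : ∀ i, u i ∈ W) (k0 : Fin 3) (hk0 : u k0 = 1)
    (hα : ∑ i, j (α i) * u i ∈ W.nonunits) (hβ : ∑ i, j (β i) * u i ∈ W.nonunits) :
    MvPolynomial.eval₂ (j.comp g) u Q ∉ W.nonunits := by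
  intro h0
  let jW : A →+* W := j.codRestrict W.toSubring hW
  let ρ : W →+* IsLocalRing.ResidueField W := IsLocalRing.residue W
  let û : Fin 3 → W := fun i => ⟨u i, hu i⟩
  have hnon : ∀ x : W, (x : Ω) ∈ W.nonunits → ρ x = 0 := by
    intro x hx
    obtain ⟨hx1, hx2⟩ := (W.mem_nonunits_iff_exists_mem_maximalIdeal).1 hx
    exact (IsLocalRing.residue_eq_zero_iff x).2 hx2
  have hsum : ∀ γ : Fin 3 → A, ∑ i, j (γ i) * u i ∈ W.nonunits →
      ∑ i, (ρ.comp jW) (γ i) * ρ (û i) = 0 := by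
    intro γ hγ
    have h1 : ∑ i, (ρ.comp jW) (γ i) * ρ (û i) = ρ (∑ i, jW (γ i) * û i) := by
      rw [map_sum]
      exact Finset.sum_congr rfl fun i _ => (map_mul ρ _ _).symm
    rw [h1]
    apply hnon
    have h2 : ((∑ i, jW (γ i) * û i : W) : Ω) = ∑ i, j (γ i) * u i := by
      have e1 : ((∑ i, jW (γ i) * û i : W) : Ω) = W.subtype (∑ i, jW (γ i) * û i) := rfl
      rw [e1, map_sum]
      rfl
    rw [h2]
    exact hγ
  have hu0 : (fun i => ρ (û i)) ≠ 0 := by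
    intro h
    have h1 := congrFun h k0
    have h2 : û k0 = 1 := Subtype.ext hk0
    simp only [h2, map_one, Pi.zero_apply] at h1
    exact one_ne_zero h1
  refine common_zero (ρ.comp jW) g Q e hQ α β hnd (fun i => ρ (û i)) hu0 (hsum α hα) (hsum β hβ) ?_
  have h3 : MvPolynomial.eval₂ ((ρ.comp jW).comp g) (fun i => ρ (û i)) Q =
      ρ (MvPolynomial.eval₂ (jW.comp g) û Q) := by
    rw [MvPolynomial.hom_eval₂]
    rfl
  rw [h3]
  apply hnon
  have h4 : ((MvPolynomial.eval₂ (jW.comp g) û Q : W) : Ω) = MvPolynomial.eval₂ (j.comp g) u Q := by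
    have e1 : ((MvPolynomial.eval₂ (jW.comp g) û Q : W) : Ω) =
        W.subtype (MvPolynomial.eval₂ (jW.comp g) û Q) := rfl
    rw [e1, MvPolynomial.hom_eval₂]
    rfl
  rw [h4]
  exact h0

/-- ratios of the conjugate forms are `ℓ`-th powers up to units at all places -/
lemma ratio_lin {R Ω A : Type*} [Field Ω] [Field A] [CommRing R] (j : A →+* Ω)
    (W : ValuationSubring Ω) (hW : ∀ c, j c ∈ W) {X : Type*} [Fintype X]
    (g : R →+* A) (Q : MvPolynomial (Fin 3) R) (e : ℕ) (hQ : Q.IsHomogeneous e)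
    (α : X → Fin 3 → A)
    (hnd : ∀ i i', i ≠ i' → MvPolynomial.eval₂ g (α i ⨯₃ α i') Q ≠ 0) (u : Fin 3 → Ω)
    (hu : u ≠ 0) (ℓ n : ℕ) (hn : 0 < n) (hℓ : 0 < ℓ) (c : A) (hc : c ≠ 0)
    (hcard : Fintype.card X = n * ℓ * e)
    (hrel : j c * MvPolynomial.eval₂ (j.comp g) u Q ^ (n * ℓ) =
      ∏ i, ∑ k, j (α i k) * u k) (i i' : X)
    (hi0 : ∑ k, j (α i k) * u k ≠ 0) (hi'0 : ∑ k, j (α i' k) * u k ≠ 0) :
    ∃ (t : Ω) (k0 : Fin 3) (a : ℤ), t = (MvPolynomial.eval₂ (j.comp g) u Q ^ n /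
        u k0 ^ (n * e)) ^ a ∧ t ≠ 0 ∧
      (∑ k, j (α i k) * u k) / (∑ k, j (α i' k) * u k) / t ^ ℓ ∈ W ∧
      t ^ ℓ / ((∑ k, j (α i k) * u k) / (∑ k, j (α i' k) * u k)) ∈ W := by
  classical
  have hconst : ∀ a : A, a ≠ 0 → IsU W (j a) := fun a ha =>
    ⟨(_root_.map_ne_zero j).2 ha, hW a, by rw [← map_inv₀]; exact hW _⟩
  -- the largest coordinate
  obtain ⟨k0, hk0⟩ := Finite.exists_max (fun k => W.valuation (u k))
  have huk0 : u k0 ≠ 0 := by
    intro h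
    apply hu
    funext k
    have h1 := hk0 k
    simp only [h, map_zero, le_zero_iff, map_eq_zero] at h1
    exact h1
  set u' : Fin 3 → Ω := fun k => u k / u k0 with hu'
  have huW : ∀ k, u' k ∈ W := by
    intro k
    rw [← W.valuation_le_one_iff, hu', map_div₀]
    exact div_le_one_of_le₀ (hk0 k) zero_le
  have hu1 : u' k0 = 1 := div_self huk0
  set Λ : X → Ω := fun i => ∑ k, j (α i k) * u k with hΛ
  set Λ' : X → Ω := fun i => ∑ k, j (α i k) * u' k with hΛ'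
  have hΛΛ : ∀ i, Λ i = u k0 * Λ' i := by
    intro i
    rw [hΛ, hΛ', Finset.mul_sum]
    refine Finset.sum_congr rfl fun k _ => ?_
    rw [hu']
    field_simp
  have hΛW : ∀ i, Λ' i ∈ W := fun i => sum_mem fun k _ => mul_mem (hW _) (huW k)
  set q : Ω := MvPolynomial.eval₂ (j.comp g) u Q with hq
  set q' : Ω := MvPolynomial.eval₂ (j.comp g) u' Q with hq'
  have hqq : q = u k0 ^ e * q' := by
    rw [hq, hq', ← eval_smul _ _ e hQ]
    congr 1
    funext k
    rw [hu']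
    field_simp
  have hrel' : j c * q' ^ (n * ℓ) = ∏ i, Λ' i := by
    have h1 : ∏ i, Λ i = u k0 ^ (n * ℓ * e) * ∏ i, Λ' i := by
      rw [Finset.prod_congr rfl fun i _ => hΛΛ i, Finset.prod_mul_distrib, Finset.prod_const,
        Finset.card_univ, hcard]
    have h2 : j c * (u k0 ^ e * q') ^ (n * ℓ) = u k0 ^ (n * ℓ * e) * ∏ i, Λ' i := by
      rw [← hqq, ← h1]
      exact hrel
    have h3 : (u k0 ^ (n * ℓ * e)) ≠ 0 := pow_ne_zero _ huk0
    apply mul_left_cancel₀ h3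
    rw [← h2, mul_pow, ← pow_mul, mul_comm e (n * ℓ)]
    ring
  have htw : q ^ n / u k0 ^ (n * e) = q' ^ n := by
    rw [hqq, mul_pow, ← pow_mul, mul_comm e n, mul_div_cancel_left₀ _ (pow_ne_zero _ huk0)]
  have hΛ0 : ∀ i, Λ i ≠ 0 → Λ' i ≠ 0 := by
    intro i hi h
    apply hi
    rw [hΛΛ, h, mul_zero]
  have hrat : Λ i / Λ i' = Λ' i / Λ' i' := by
    rw [hΛΛ, hΛΛ i', mul_div_mul_left _ _ huk0]
  -- the product of the others
  have hother : ∀ l, Λ' l ∈ W.nonunits → ∀ l', l' ≠ l → IsU W (Λ' l') := by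
    intro l hl l' hl'
    by_contra h
    have h1 : Λ' l' ∈ W.nonunits := by
      by_contra h2
      exact h (isU_of_not_nonunit (hΛW l') h2)
    refine two_units j W hW g Q e hQ (α l') (α l) (hnd l' l hl') u' huW k0 hu1 h1 hl ?_
    by_contra h2
    have h3 : q' ∈ W := by
      rw [hq', MvPolynomial.eval₂_eq']
      refine sum_mem fun d _ => mul_mem (hW _) (prod_mem fun k _ => pow_mem (huW k) _)
    have h4 : IsU W (j c * q' ^ (n * ℓ)) :=
      (hconst c hc).mul ((isU_of_not_nonunit h3 h2).pow _)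
    rw [hrel', ← Finset.mul_prod_erase Finset.univ Λ' (Finset.mem_univ l)] at h4
    refine h4.not_nonunit ?_
    rw [mul_comm]
    exact nonunit_mul (prod_mem fun l _ => hΛW l) hl
  have hkey : ∀ l, Λ' l ≠ 0 → Λ' l ∈ W.nonunits → q' ≠ 0 ∧ IsU W (Λ' l / (q' ^ n) ^ ℓ) := by
    intro l hl0 hl
    have hP : IsU W (∏ l' ∈ Finset.univ.erase l, Λ' l') :=
      IsU.prod _ _ fun l' hl' => hother l hl l' (Finset.ne_of_mem_erase hl')
    have h1 : j c * q' ^ (n * ℓ) = Λ' l * ∏ l' ∈ Finset.univ.erase l, Λ' l' := by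
      rw [hrel', Finset.mul_prod_erase Finset.univ Λ' (Finset.mem_univ l)]
    have hq0 : q' ≠ 0 := by
      intro h
      rw [h, zero_pow (by positivity), mul_zero] at h1
      exact mul_ne_zero hl0 hP.1 h1.symm
    refine ⟨hq0, ?_⟩
    have hjc : j c ≠ 0 := (_root_.map_ne_zero j).2 hc
    have h2 : Λ' l / (q' ^ n) ^ ℓ = j c / ∏ l' ∈ Finset.univ.erase l, Λ' l' := by
      rw [← pow_mul, div_eq_div_iff (pow_ne_zero _ hq0) hP.1]
      exact h1.symm
    rw [h2]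
    exact (hconst c hc).div hP
  have hsuff : ∀ a : ℤ, (a = 0 ∨ q' ≠ 0) → IsU W (Λ' i / Λ' i' / ((q' ^ n) ^ a) ^ ℓ) →
      ∃ (t : Ω) (k0 : Fin 3) (a : ℤ), t = (q ^ n / u k0 ^ (n * e)) ^ a ∧ t ≠ 0 ∧
      Λ i / Λ i' / t ^ ℓ ∈ W ∧ t ^ ℓ / (Λ i / Λ i') ∈ W := by
    intro a ha h
    refine ⟨(q' ^ n) ^ a, k0, a, by rw [htw], ?_, ?_, ?_⟩
    · rcases ha with rfl | ha
      · rw [zpow_zero]
        exact one_ne_zero
      · exact zpow_ne_zero _ (pow_ne_zero _ ha)
    · rw [hrat]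
      exact h.2.1
    · rw [hrat]
      have := h.2.2
      rwa [inv_div] at this
  by_cases hii : i = i'
  · subst hii
    apply hsuff 0 (Or.inl rfl)
    rw [div_self (hΛ0 i hi0), zpow_zero, one_pow, div_one]
    exact isU_one
  by_cases hni : Λ' i ∈ W.nonunits
  · obtain ⟨hq0, hab⟩ := hkey i (hΛ0 i hi0) hni
    apply hsuff 1 (Or.inr hq0)
    rw [zpow_one, div_right_comm]
    exact hab.div (hother i hni i' (Ne.symm hii))
  · by_cases hni' : Λ' i' ∈ W.nonunits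
    · obtain ⟨hq0, hab⟩ := hkey i' (hΛ0 i' hi'0) hni'
      apply hsuff (-1) (Or.inr hq0)
      have h1 : Λ' i / Λ' i' / ((q' ^ n) ^ (-1 : ℤ)) ^ ℓ = Λ' i / (Λ' i' / (q' ^ n) ^ ℓ) := by
        rw [zpow_neg, zpow_one, inv_pow, div_inv_eq_mul, div_mul_eq_mul_div,
          div_div_eq_mul_div]
      rw [h1]
      exact (hother i' hni' i hii).div hab
    · apply hsuff 0 (Or.inl rfl)
      rw [zpow_zero, one_pow, div_one]
      exact (isU_of_not_nonunit (hΛW i) hni).div (isU_of_not_nonunit (hΛW i') hni')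

end Pool.Agent.TH377.NC
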