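import Pool.Agent.TH120.Sec.Gal
import Pool.Agent.TH377.LocG.Gal
import Pool.Agent.TH377.NC.Abs
import Pool.Agent.TH377.NC.Vec

/-!
# The Kummer argument for conjugate linear forms: sections and rational points
-/

set_option autoImplicit false
set_option maxHeartbeats 400000

namespace Pool.Agent.TH377.NC

open Pool.Agent.W620.SC Pool.Agent.W623.SecC Pool.Agent.TH120.Sec Polynomial IntermediateField
open Pool.Agent.TH377.LocG
open scoped Matrix

universe u v w

/-- every class has another element -/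
lemma exists_other {X : Type*} {Y : Type*} (cl : X → Y) (ℓ : ℕ) (hℓ : ℓ ≠ 1)
    (hcard : ∀ x, Nat.gcd 2 ℓ * ℓ ∣ Nat.card {x' // cl x' = cl x}) (i : X) :
    ∃ i', i' ≠ i ∧ cl i' = cl i := by
  by_contra h
  push Not at h
  have h2 : Nat.card {x' // cl x' = cl i} = 1 := by
    rw [Nat.card_eq_one_iff_exists]
    refine ⟨⟨i, rfl⟩, fun x' => Subtype.ext ?_⟩
    by_contra h3
    exact h x'.1 h3 x'.2
  have h3 := hcard i
  rw [h2] at h3
  exact hℓ (Nat.dvd_one.1 ((Dvd.intro_left _ rfl).trans h3))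

/-- no section over `F_U` -/
theorem galL {k : Type u} {F : Type v} {Ω : Type w} [Field k] [Field F] [Field Ω]
    [Algebra k F] [Algebra F Ω] [Algebra k Ω] [IsScalarTower k F Ω] [CharZero k] [IsAlgClosed Ω]
    [Algebra.IsAlgebraic F Ω]
    (U : Set (ValuationSubring F)) (hU : ∀ O ∈ U, ∀ c : k, algebraMap k F c ∈ O)
    (G : GSection k F Ω U) (V : ValuationSubring (algebraicClosure k Ω))
    (S : IntermediateField k (algebraicClosure k Ω)) (ϖ : k) (ϖ0 : ϖ ≠ 0)
    (ϖn : algebraMap k (algebraicClosure k Ω) ϖ ∈ V.nonunits)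
    (tame : ∀ c ∈ S, c ≠ 0 → ∃ j : ℤ, IsU V (c / algebraMap k (algebraicClosure k Ω) ϖ ^ j))
    (ℓ : ℕ) (hℓ0 : 0 < ℓ)
    {X : Type*} [Fintype X] (θ : X → algebraicClosure k Ω) (e : X → ℕ) {Y : Type*} (cl : X → Y)
    (htr : ∀ x x', cl x = cl x' → ∃ φ π, GoodAut θ e cl S V φ π ∧ π x = x')
    (hcard : ∀ x, Nat.gcd 2 ℓ * ℓ ∣ Nat.card {x' // cl x' = cl x})
    (α : X → Fin 3 → algebraicClosure k Ω) (hαS : ∀ i j, α i j ∈ S)
    (hαG : ∀ φ π, GoodAut θ e cl S V φ π → ∀ i j, φ (α i j) = α (π i) j)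
    (Q : MvPolynomial (Fin 3) k) (q : ℕ) (hQ : Q.IsHomogeneous q)
    (hnd : ∀ i i', i ≠ i' →
      MvPolynomial.eval₂ (algebraMap k (algebraicClosure k Ω)) (α i ⨯₃ α i') Q ≠ 0)
    (x : Fin 3 → F) (hx : x ≠ 0) (n : ℕ) (hn : 0 < n) (hX : Fintype.card X = n * ℓ * q)
    (c : algebraicClosure k Ω) (hcS : c ∈ S) (m : ℤ)
    (hm : ¬ (ℓ : ℤ) ∣ m) (hc : IsU V (c / algebraMap k (algebraicClosure k Ω) ϖ ^ m))
    (hxy : (c : Ω) * algebraMap F Ω (MvPolynomial.eval₂ (algebraMap k F) x Q) ^ (n * ℓ) =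
      ∏ i, ∑ j, (α i j : Ω) * algebraMap F Ω (x j)) :
    False := by
  have hℓ : ℓ ≠ 1 := by
    rintro rfl
    exact hm (by simp)
  have hac : IsAlgClosure k (algebraicClosure k Ω) := inferInstance
  have hA : IsAlgClosed (algebraicClosure k Ω) := hac.1
  have hWk : ∀ W : ValuationSubring Ω, W.comap (algebraMap F Ω) ∈ U →
      ∀ c : k, algebraMap k Ω c ∈ W := by
    intro W hW c
    rw [IsScalarTower.algebraMap_apply k F Ω]
    exact hU _ hW c
  have hWA : ∀ W : ValuationSubring Ω, W.comap (algebraMap F Ω) ∈ U →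
      ∀ c : algebraicClosure k Ω, algebraMap (algebraicClosure k Ω) Ω c ∈ W := by
    intro W hW c
    exact const_mem (hWk W hW) c.2
  have hc0 : c ≠ 0 := by
    rintro rfl
    rw [zero_div] at hc
    exact hc.1 rfl
  set j : algebraicClosure k Ω →+* Ω := algebraMap (algebraicClosure k Ω) Ω with hj
  set g : k →+* algebraicClosure k Ω := algebraMap k (algebraicClosure k Ω) with hg
  set x' : Fin 3 → Ω := fun i => algebraMap F Ω (x i) with hx'
  have hx'0 : x' ≠ 0 := by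
    intro h
    apply hx
    funext i
    exact (_root_.map_eq_zero _).1 (congrFun h i)
  have hQx : algebraMap F Ω (MvPolynomial.eval₂ (algebraMap k F) x Q) =
      MvPolynomial.eval₂ (j.comp g) x' Q := by
    rw [MvPolynomial.hom_eval₂, ← IsScalarTower.algebraMap_eq k F Ω]
    rfl
  rw [hQx] at hxy
  -- the forms
  set D := mkT U hU G V S ϖ ϖ0 ϖn tame 1 (fun _ => Iff.rfl) (fun _ => Iff.rfl) with hD
  set lam : X → unramified F Ω U := fun i =>
    ∑ l, D.ι (α i l) * algebraMap F (unramified F Ω U) (x l) with hlam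
  have hval : ∀ i, ((lam i : unramified F Ω U) : Ω) = ∑ l, j (α i l) * x' l := by
    intro i
    change algebraMap (unramified F Ω U) Ω (lam i) = _
    rw [hlam, map_sum]
    exact Finset.sum_congr rfl fun l _ => map_mul (algebraMap (unramified F Ω U) Ω) _ _
  have hfix : ∀ (σ) (z : F), D.s σ (algebraMap F (unramified F Ω U) z) =
      algebraMap F (unramified F Ω U) z := fun σ z => (G.toHom σ).commutes z
  have hGood : ∀ φ π, GoodAut θ e cl S V φ π → ∀ i, D.s φ (lam i) = lam (π i) := by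
    intro φ π hφ i
    rw [hlam, map_sum]
    refine Finset.sum_congr rfl fun l _ => ?_
    rw [map_mul, hfix, D.hι, hαG φ π hφ]
  have hmem : ∀ i, lam i ∈ D.RS := fun i => sum_mem fun l _ =>
    mul_mem (D.ι_mem (hαS i l)) (fun σ _ => hfix σ _)
  have hne0 : ∀ i, lam i ≠ 0 := by
    intro i hi
    obtain ⟨i', hi', hcl⟩ := exists_other cl ℓ hℓ hcard i
    obtain ⟨φ, π, hφ, hπ⟩ := htr i i' hcl.symm
    have h1 := hGood φ π hφ i
    rw [hi, map_zero, hπ] at h1
    have h2 := hval i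
    have h3 := hval i'
    rw [hi] at h2
    rw [← h1] at h3
    refine common_zero j g Q q hQ (α i') (α i) (hnd i' i hi') x' hx'0 h3.symm h2.symm ?_
    have h4 : ∏ i, ∑ l, (α i l : Ω) * algebraMap F Ω (x l) = 0 :=
      Finset.prod_eq_zero (Finset.mem_univ i) h2.symm
    rw [h4] at hxy
    have h5 : (c : Ω) ≠ 0 := by
      intro h
      exact hc0 (Subtype.ext h)
    exact pow_eq_zero_iff (by positivity) |>.1 ((mul_eq_zero.1 hxy).resolve_left h5)
  refine absL D ℓ hℓ0 θ e cl ⟨ϖ, rfl⟩ htr hcard lam hne0 hmem hGood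
    (algebraMap F (unramified F Ω U) (MvPolynomial.eval₂ (algebraMap k F) x Q ^ n))
    (fun σ => hfix σ _) c hcS m hm hc ?_ ?_
  · apply (algebraMap (unramified F Ω U) Ω).injective
    have hval' : ∀ i, algebraMap (unramified F Ω U) Ω (lam i) = ∑ l, j (α i l) * x' l := hval
    rw [map_mul, map_pow, map_prod]
    simp only [hval']
    change (c : Ω) * (algebraMap F Ω (MvPolynomial.eval₂ (algebraMap k F) x Q ^ n)) ^ ℓ = _
    rw [map_pow, hQx, ← pow_mul]
    exact hxy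
  · intro i i'
    refine exists_root_unramified (k := k) U hU hℓ0 _ ?_
    intro _ W hW
    have hv : ((lam i / lam i' : unramified F Ω U) : Ω) =
        (∑ l, j (α i l) * x' l) / (∑ l, j (α i' l) * x' l) := by
      rw [← hval, ← hval]
      exact map_div₀ (algebraMap (unramified F Ω U) Ω) _ _
    rw [hv]
    have hne' : ∀ i, ∑ l, j (α i l) * x' l ≠ 0 := by
      intro i h
      rw [← hval] at h
      exact hne0 i (Subtype.ext h)
    obtain ⟨t, k0, a, ht, ht0, h3, h4⟩ := ratio_lin j W (hWA W hW) g Q q hQ α hnd x' hx'0 ℓ n hn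
      hℓ0 c hc0 hX hxy i i' (hne' i) (hne' i')
    refine ⟨t, ?_, ht0, h3, h4⟩
    have h5 : t = algebraMap F Ω ((MvPolynomial.eval₂ (algebraMap k F) x Q ^ n /
        x k0 ^ (n * q)) ^ a) := by
      rw [ht, map_zpow₀, map_div₀, map_pow, map_pow, hQx]
    rw [h5]
    exact IntermediateField.algebraMap_mem _ _

/-- no rational point -/
theorem galLpt {k : Type u} {A : Type w} [Field k] [Field A] [Algebra k A] [CharZero k]
    [IsAlgClosed A] [Algebra.IsAlgebraic k A] (V : ValuationSubring A)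
    (S : IntermediateField k A) (ϖ : k) (ϖ0 : ϖ ≠ 0)
    (ϖn : algebraMap k A ϖ ∈ V.nonunits)
    (tame : ∀ c ∈ S, c ≠ 0 → ∃ j : ℤ, IsU V (c / algebraMap k A ϖ ^ j))
    (ℓ : ℕ) (hℓ0 : 0 < ℓ)
    {X : Type*} [Fintype X] (θ : X → A) (e : X → ℕ) {Y : Type*} (cl : X → Y)
    (htr : ∀ x x', cl x = cl x' → ∃ φ π, GoodAut θ e cl S V φ π ∧ π x = x')
    (hcard : ∀ x, Nat.gcd 2 ℓ * ℓ ∣ Nat.card {x' // cl x' = cl x})
    (α : X → Fin 3 → A) (hαS : ∀ i j, α i j ∈ S)
    (hαG : ∀ φ π, GoodAut θ e cl S V φ π → ∀ i j, φ (α i j) = α (π i) j)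
    (Q : MvPolynomial (Fin 3) k) (q : ℕ) (hQ : Q.IsHomogeneous q)
    (hnd : ∀ i i', i ≠ i' →
      MvPolynomial.eval₂ (algebraMap k A) (α i ⨯₃ α i') Q ≠ 0)
    (x : Fin 3 → k) (hx : x ≠ 0) (n : ℕ) (hn : 0 < n)
    (c : A) (hcS : c ∈ S) (m : ℤ)
    (hm : ¬ (ℓ : ℤ) ∣ m) (hc : IsU V (c / algebraMap k A ϖ ^ m))
    (hxy : c * algebraMap k A (MvPolynomial.eval₂ (RingHom.id k) x Q) ^ (n * ℓ) =
      ∏ i, ∑ j, α i j * algebraMap k A (x j)) :
    False := by
  have hℓ : ℓ ≠ 1 := by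
    rintro rfl
    exact hm (by simp)
  have hc0 : c ≠ 0 := by
    rintro rfl
    rw [zero_div] at hc
    exact hc.1 rfl
  set x' : Fin 3 → A := fun i => algebraMap k A (x i) with hx'
  have hx'0 : x' ≠ 0 := by
    intro h
    apply hx
    funext i
    exact (_root_.map_eq_zero _).1 (congrFun h i)
  have hQx : algebraMap k A (MvPolynomial.eval₂ (RingHom.id k) x Q) =
      MvPolynomial.eval₂ ((RingHom.id A).comp (algebraMap k A)) x' Q := by
    rw [MvPolynomial.hom_eval₂]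
    rfl
  set D := idT V S ϖ ϖ0 ϖn tame 1 (fun _ => Iff.rfl) (fun _ => Iff.rfl) with hD
  set lam : X → A := fun i => ∑ l, α i l * x' l with hlam
  have hfix : ∀ (σ) (z : k), D.s σ (algebraMap k A z) = algebraMap k A z :=
    fun σ z => σ.commutes z
  have hGood : ∀ φ π, GoodAut θ e cl S V φ π → ∀ i, D.s φ (lam i) = lam (π i) := by
    intro φ π hφ i
    rw [hlam, map_sum]
    refine Finset.sum_congr rfl fun l _ => ?_
    rw [map_mul, hfix]
    congr 1
    exact hαG φ π hφ i l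
  have hmem : ∀ i, lam i ∈ D.RS := fun i => sum_mem fun l _ =>
    mul_mem (D.ι_mem (hαS i l)) (fun σ _ => hfix σ _)
  have hne0 : ∀ i, lam i ≠ 0 := by
    intro i hi
    obtain ⟨i', hi', hcl⟩ := exists_other cl ℓ hℓ hcard i
    obtain ⟨φ, π, hφ, hπ⟩ := htr i i' hcl.symm
    have h1 := hGood φ π hφ i
    rw [hi, map_zero, hπ] at h1
    refine common_zero (RingHom.id A) (algebraMap k A) Q q hQ (α i') (α i) (hnd i' i hi') x' hx'0
      h1.symm hi ?_
    have h4 : ∏ i, ∑ l, α i l * algebraMap k A (x l) = 0 :=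
      Finset.prod_eq_zero (Finset.mem_univ i) hi
    rw [h4, hQx] at hxy
    exact pow_eq_zero_iff (by positivity) |>.1 ((mul_eq_zero.1 hxy).resolve_left hc0)
  refine absL D ℓ hℓ0 θ e cl ⟨ϖ, rfl⟩ htr hcard lam hne0 hmem hGood
    (algebraMap k A (MvPolynomial.eval₂ (RingHom.id k) x Q ^ n))
    (fun σ => hfix σ _) c hcS m hm hc ?_ ?_
  · rw [map_pow, ← pow_mul]
    exact hxy
  · intro i i'
    exact IsAlgClosed.exists_pow_nat_eq _ hℓ0

end Pool.Agent.TH377.NC
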