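import Pool.Agent.TH377.NC.Dvr
import Pool.Agent.TH377.NC.Emb

/-!
# Norm-form curves over discretely valued fields
-/

set_option autoImplicit false
set_option maxHeartbeats 400000
set_option linter.unusedSectionVars false

namespace Pool.Agent.TH377.NC

open Polynomial IsDedekindDomain Pool.Agent.TH377.LocG Pool.Agent.TH120.Sec
  Pool.Agent.W620.SC

universe u v w x y z

/-- the norm as a product over roots -/
lemma norm_roots' {K : Type u} {E : Type x} {L : Type y} {Ω : Type w} [Field K] [CharZero K]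
    [Field E] [Algebra K E] [FiniteDimensional K E] [Field L] [Algebra K L] [Field Ω]
    [Algebra L Ω] [Algebra K Ω] [IsScalarTower K L Ω] [IsAlgClosed Ω] (pb : PowerBasis K E)
    (P : Fin 3 → K[X]) (x : Fin 3 → Ω) :
    ∏ σ : E →ₐ[K] Ω, ∑ j, σ (aeval pb.gen (P j)) * x j =
      ((((minpoly K pb.gen).map (algebraMap K L)).map (algebraMap L Ω)).roots.map fun θ =>
        ∑ j, aeval θ ((P j).map (algebraMap K L)) * x j).prod := by
  rw [Polynomial.map_map, ← IsScalarTower.algebraMap_eq K L Ω]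
  change _ = (((minpoly K pb.gen).aroots Ω).map _).prod
  rw [← prod_emb pb]
  refine Finset.prod_congr rfl fun σ _ => Finset.sum_congr rfl fun j _ => ?_
  rw [emb_val, aeval_map_algebraMap]

section

variable {R : Type z} {K : Type u} [CommRing R] [IsDomain R] [IsDiscreteValuationRing R] [Field K]
  [Algebra R K] [IsFractionRing R K] [CharZero K] {E : Type x} [Field E] [Algebra K E]
  [FiniteDimensional K E] {L : Type y} [Field L] [Algebra K L] [FiniteDimensional K L]
  (D : ℕ) (hD : D ≠ 0) (pb : PowerBasis K E) (g : R[X]) (hg : g.Monic)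
  (hgK : g.map (algebraMap R K) = minpoly K pb.gen)
  (hs : (g.map (IsLocalRing.residue R)).Separable)
  (hσ : FactorDiv (Nat.gcd 2 D * D) (g.map (IsLocalRing.residue R)))
  (ϖ0 t0 : R) (hϖ0 : Irreducible ϖ0) (ht0 : IsUnit t0) (m : ℤ)
  (hm : ¬ (D : ℤ) ∣ m * Module.finrank K L) (a : K)
  (ha : a = algebraMap R K t0 * algebraMap R K ϖ0 ^ m) (n q : ℕ) (hDn : D ∣ n)
  (hnq : n * q = Module.finrank K E) (A : Fin 3 → E) (Q : MvPolynomial (Fin 3) K)
  (hQ : Q.IsHomogeneous q)
  (htr : ∀ σ τ : E →ₐ[K] AlgebraicClosure K, σ ≠ τ →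
    MvPolynomial.aeval (crossProduct (fun j => σ (A j)) (fun j => τ (A j))) Q ≠ 0)

include hD hg hgK hs hσ hϖ0 ht0 hm ha hDn hnq hQ htr

/-- no points and no sections -/
theorem gen_both :
    (∀ x : Fin 3 → L, x ≠ 0 → ∏ σ : E →ₐ[K] AlgebraicClosure L,
        ∑ j, σ (A j) * algebraMap L (AlgebraicClosure L) (x j) ≠
      algebraMap K (AlgebraicClosure L) a *
        MvPolynomial.aeval (fun j => algebraMap L (AlgebraicClosure L) (x j)) Q ^ n) ∧
    ∀ (F : Type v) (Ω : Type w) [Field F] [Field Ω] [Algebra L F] [Algebra F Ω] [Algebra L Ω]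
      [Algebra K Ω] [IsScalarTower L F Ω] [IsScalarTower K L Ω] [IsAlgClosure F Ω]
      (x : Fin 3 → F) (U : Set (ValuationSubring F)), x ≠ 0 →
      ∏ σ : E →ₐ[K] Ω, ∑ j, σ (A j) * algebraMap F Ω (x j) =
        algebraMap K Ω a * MvPolynomial.aeval (fun j => algebraMap F Ω (x j)) Q ^ n →
      (∀ O ∈ U, ∀ c : L, algebraMap L F c ∈ O) → IsEmpty (GSection L F Ω U) := by
  let _ : Algebra R L := ((algebraMap K L).comp (algebraMap R K)).toAlgebra
  have hstR : IsScalarTower R K L := IsScalarTower.of_algebraMap_eq (fun _ => rfl)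
  obtain ⟨ℓ, hℓ0, hℓD, B, _, _, _, _, hfr, f, hf, hfK, hfs, hfd, ϖ, t, m', hϖ, ht, hm', hat⟩ :=
    dvr_data (k := K) (L := L) g hg hs D hD hσ ϖ0 t0 hϖ0 ht0 m hm
  have hczL : CharZero L := charZero_of_injective_algebraMap (algebraMap K L).injective
  obtain ⟨n', rfl⟩ := hℓD.trans hDn
  have hd0 : Module.finrank K E ≠ 0 := by
    have : 0 < Module.finrank K E := Module.finrank_pos
    exact this.ne'
  have hn' : 0 < n' := by
    rcases Nat.eq_zero_or_pos n' with h | h
    · rw [h, mul_zero, zero_mul] at hnq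
      exact absurd hnq.symm hd0
    · exact h
  have hfL : f.map (algebraMap B L) = (minpoly K pb.gen).map (algebraMap K L) := by
    rw [hfK, ← hgK, Polynomial.map_map, ← IsScalarTower.algebraMap_eq R K L]
  have hgd : g.natDegree = Module.finrank K E := by
    rw [pb.finrank, ← pb.natDegree_minpoly, ← hgK, hg.natDegree_map]
  have hfdeg : f.natDegree = n' * ℓ * q := by
    have h1 : (f.map (algebraMap B L)).natDegree = f.natDegree := hf.natDegree_map _
    rw [← h1, hfK, hg.natDegree_map, hgd, ← hnq]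
    ring
  choose P hP using fun j => pb.exists_eq_aeval' (A j)
  have hA : A = fun j => aeval pb.gen (P j) := funext hP
  have hQL : (MvPolynomial.map (algebraMap K L) Q).IsHomogeneous q := hQ.map _
  have htr' : ∀ σ τ : E →ₐ[K] AlgebraicClosure K, σ ≠ τ → MvPolynomial.aeval
      (crossProduct (fun j => σ (aeval pb.gen (P j))) (fun j => τ (aeval pb.gen (P j)))) Q ≠ 0 := by
    intro σ τ hστ
    have h1 := htr σ τ hστ
    rw [hA] at h1
    exact h1
  have haL : algebraMap K L a = algebraMap B L t * algebraMap B L ϖ ^ m' := by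
    rw [← hat, ha, map_mul, map_zpow₀]
    rfl
  refine ⟨?_, ?_⟩
  · intro x hx hon
    have hst : IsScalarTower K L (AlgebraicClosure L) := inferInstance
    refine local_point (A := B) (k := L) (kb := AlgebraicClosure L) ℓ hℓ0 f hf hfs hfd ϖ hϖ
      (algebraMap K L a) t ht m' hm' haL (fun j => (P j).map (algebraMap K L))
      (MvPolynomial.map (algebraMap K L) Q) q hQL ?_ x hx n' hn' ?_
    · intro θ θ' hθ hθ' hne
      rw [hfL, aeval_map_algebraMap] at hθ hθ'
      exact nd_lift pb P Q htr' θ θ' hθ hθ' hne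
    · rw [hfL, ← norm_roots' pb P]
      rw [hA] at hon
      rw [hon, ← IsScalarTower.algebraMap_apply, mul_comm n' ℓ]
      congr 2
      rw [MvPolynomial.aeval_def, MvPolynomial.eval₂_map, MvPolynomial.hom_eval₂,
        RingHom.id_comp, ← IsScalarTower.algebraMap_eq]
  · intro F Ω _ _ _ _ _ _ _ _ _ x U hx hon hU
    have hcl : IsAlgClosed Ω := IsAlgClosure.isAlgClosed F
    have halg : Algebra.IsAlgebraic F Ω := IsAlgClosure.isAlgebraic
    have hac : IsAlgClosure L (algebraicClosure L Ω) := inferInstance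
    have hkb : IsAlgClosed (algebraicClosure L Ω) := hac.1
    refine local_section (A := B) (k := L) ℓ hℓ0 f hf hfs hfd ϖ hϖ
      (algebraMap K L a) t ht m' hm' haL U hU (fun j => (P j).map (algebraMap K L))
      (MvPolynomial.map (algebraMap K L) Q) q hQL ?_ x hx n' hn' hfdeg ?_
    · intro θ θ' hθ hθ' hne
      rw [hfL, aeval_map_algebraMap] at hθ hθ'
      exact nd_lift pb P Q htr' θ θ' hθ hθ' hne
    · rw [hfL, ← norm_roots' pb P]
      rw [hA] at hon
      rw [hon, ← IsScalarTower.algebraMap_apply, mul_comm n' ℓ]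
      congr 2
      rw [MvPolynomial.aeval_def, MvPolynomial.eval₂_map, MvPolynomial.hom_eval₂,
        ← RingHom.comp_assoc, ← IsScalarTower.algebraMap_eq L F Ω,
        ← IsScalarTower.algebraMap_eq K L Ω]

end

end Pool.Agent.TH377.NC
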