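import Pool.Agent.TH377.LocG.Main
import Pool.Agent.TH377.NC.Gal

/-!
# The local theorem for conjugate linear forms
-/

set_option autoImplicit false
set_option maxHeartbeats 400000

namespace Pool.Agent.TH377.NC

open Pool.Agent.W620.SC Pool.Agent.W623.SecC Pool.Agent.TH120.Sec Polynomial IntermediateField
open Pool.Agent.TH377.LocG Pool.Agent.TH377.Loc
open scoped Matrix

universe u v w

lemma roots_eq {A kb B : Type*} [CommRing A] [Field kb] [Field B] [Infinite B] [Algebra A kb]
    (f : A[X]) {X : Type*} [Fintype X] (θ : X → kb) (g : kb →+* B)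
    (hprod : ∀ z : B, f.eval₂ (g.comp (algebraMap A kb)) z = ∏ x : X, (z - g (θ x))) :
    (f.map (g.comp (algebraMap A kb))).roots =
      (Finset.univ : Finset X).val.map fun x => g (θ x) := by
  have h1 : f.map (g.comp (algebraMap A kb)) =
      (((Finset.univ : Finset X).val.map fun x => g (θ x)).map
        (fun a => (Polynomial.X : B[X]) - C a)).prod := by
    apply Polynomial.funext
    intro z
    rw [eval_map, hprod, Multiset.map_map, eval_multiset_prod, Multiset.map_map]
    change _ = ∏ x : X, _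
    refine Finset.prod_congr rfl fun x _ => ?_
    simp
  rw [h1, roots_multiset_prod_X_sub_C]

section

variable {A k : Type u} [CommRing A] [IsDomain A]
    [IsDiscreteValuationRing A] [Field k] [Algebra A k]
    [IsFractionRing A k] [CharZero k]
    (ℓ : ℕ) (hℓ : 0 < ℓ) (f : A[X]) (hf : f.Monic)
    (hs : (f.map (IsLocalRing.residue A)).Separable)
    (hσ : FactorDiv (Nat.gcd 2 ℓ * ℓ) (f.map (IsLocalRing.residue A)))
    (ϖ : A) (hϖ : Irreducible ϖ) (a : k) (t : A) (ht : IsUnit t) (m : ℤ) (hm : ¬ (ℓ : ℤ) ∣ m)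
    (ha : a = algebraMap A k t * algebraMap A k ϖ ^ m)

include hf hs hσ hϖ ht ha

/-- the data -/
theorem lin_data {kb : Type w} [Field kb] [Algebra k kb] [Algebra A kb] [IsScalarTower A k kb]
    [IsAlgClosed kb] [Algebra.IsAlgebraic k kb] :
    ∃ (V : ValuationSubring kb) (S : IntermediateField k kb) (X : Type w) (_ : Fintype X)
      (θ : X → kb) (e' : X → ℕ) (cl : X → (IsLocalRing.ResidueField A)[X]),
      algebraMap A k ϖ ≠ 0 ∧ algebraMap k kb (algebraMap A k ϖ) ∈ V.nonunits ∧
      (∀ c ∈ S, c ≠ 0 → ∃ j : ℤ, IsU V (c / algebraMap k kb (algebraMap A k ϖ) ^ j)) ∧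
      (∀ i, θ i ∈ S) ∧
      Function.Injective θ ∧ (∀ i, aeval (θ i) (f.map (algebraMap A k)) = 0) ∧
      (∀ x x', cl x = cl x' → ∃ φ π, GoodAut θ e' cl S V φ π ∧ π x = x') ∧
      (∀ x, Nat.gcd 2 ℓ * ℓ ∣ Nat.card {x' // cl x' = cl x}) ∧
      IsU V (algebraMap k kb a / algebraMap k kb (algebraMap A k ϖ) ^ m) ∧
      ∀ {B : Type w} [Field B] [Infinite B] (g : kb →+* B),
        ((f.map (algebraMap A k)).map (g.comp (algebraMap k kb))).roots =
          (Finset.univ : Finset X).val.map fun x => g (θ x) := by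
  have hprodf : (∏ _i : Unit, f) = f := by
    rw [Finset.univ_unique, Finset.prod_singleton]
  obtain ⟨V, X, _, θ, e', cl, hϖ0, hpn, htame, hθinj, hθroot, he', htr, hcard,
    hcu, hu0, hprod⟩ := all_data (kb := kb) ℓ (fun _ : Unit => f) (fun _ => 1)
      (fun _ => by rw [hf.leadingCoeff]; exact isUnit_one) (by rw [hprodf]; exact hs)
      (by rw [hprodf]; exact hσ) ϖ hϖ a t ht m ha
  have hlc1 : (∏ _i : Unit, f.leadingCoeff ^ 1) = 1 := by
    rw [Finset.univ_unique, Finset.prod_singleton, hf.leadingCoeff, one_pow]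
  have he1 : ∀ x, e' x = 1 := fun x => (he' x).choose_spec
  refine ⟨V, IntermediateField.adjoin k {θ : kb | aeval θ (∏ _i : Unit, f) = 0}, X, inferInstance,
    θ, e', cl, hϖ0, hpn, htame, fun i => IntermediateField.subset_adjoin k _ (hθroot i), hθinj,
    ?_, htr, hcard, ?_, ?_⟩
  · intro i
    have h1 := hθroot i
    rw [hprodf] at h1
    rw [aeval_map_algebraMap]
    exact h1
  · rw [hlc1, map_one, div_one] at hcu
    exact hcu
  · intro B _ _ g
    rw [Polynomial.map_map, RingHom.comp_assoc, ← IsScalarTower.algebraMap_eq A k kb]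
    refine roots_eq f θ g ?_
    intro z
    have h1 := hprod g z
    rw [hlc1, map_one, map_one, one_mul, Finset.univ_unique, Finset.prod_singleton, pow_one] at h1
    rw [h1]
    refine Finset.prod_congr rfl fun x _ => ?_
    rw [he1, pow_one]

include hℓ hm

/-- **The local theorem**, sections. -/
theorem local_section {F : Type v} {Ω : Type w} [Field F] [Field Ω] [Algebra k F] [Algebra F Ω]
    [Algebra k Ω] [IsScalarTower k F Ω] [IsAlgClosed Ω] [Algebra.IsAlgebraic F Ω]
    (U : Set (ValuationSubring F)) (hU : ∀ O ∈ U, ∀ c : k, algebraMap k F c ∈ O)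
    (P : Fin 3 → k[X]) (Q : MvPolynomial (Fin 3) k) (q : ℕ) (hQ : Q.IsHomogeneous q)
    (hnd : ∀ θ θ' : algebraicClosure k Ω, aeval θ (f.map (algebraMap A k)) = 0 →
      aeval θ' (f.map (algebraMap A k)) = 0 → θ ≠ θ' →
      MvPolynomial.eval₂ (algebraMap k (algebraicClosure k Ω))
        ((fun j => aeval θ (P j)) ⨯₃ (fun j => aeval θ' (P j))) Q ≠ 0)
    (x : Fin 3 → F) (hx : x ≠ 0) (n : ℕ) (hn : 0 < n) (hdeg : f.natDegree = n * ℓ * q)
    (hxy : algebraMap k Ω a * algebraMap F Ω (MvPolynomial.eval₂ (algebraMap k F) x Q) ^ (n * ℓ) =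
      (((f.map (algebraMap A k)).map (algebraMap k Ω)).roots.map fun θ =>
        ∑ j, aeval θ (P j) * algebraMap F Ω (x j)).prod) :
    IsEmpty (GSection k F Ω U) := by
  classical
  refine ⟨fun G => ?_⟩
  have hac : IsAlgClosure k (algebraicClosure k Ω) := inferInstance
  have hkb : IsAlgClosed (algebraicClosure k Ω) := hac.1
  let _ : Algebra A (algebraicClosure k Ω) :=
    ((algebraMap k (algebraicClosure k Ω)).comp (algebraMap A k)).toAlgebra
  have hst : IsScalarTower A k (algebraicClosure k Ω) :=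
    IsScalarTower.of_algebraMap_eq (fun _ => rfl)
  have hcz : CharZero Ω := charZero_of_injective_algebraMap (algebraMap k Ω).injective
  obtain ⟨V, S, X, _, θ, e', cl, hϖ0, hpn, htame, hθS, hθinj, hθroot, htr, hcard, hcu, hroots⟩ :=
    lin_data (kb := algebraicClosure k Ω) ℓ f hf hs hσ ϖ hϖ a t ht m ha
  have hr := hroots (algebraMap (algebraicClosure k Ω) Ω)
  rw [← IsScalarTower.algebraMap_eq k (algebraicClosure k Ω) Ω] at hr
  have hX : Fintype.card X = n * ℓ * q := by
    have h1 := congrArg Multiset.card hr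
    rw [Multiset.card_map, Finset.card_val, Finset.card_univ,
      ← (IsAlgClosed.splits _).natDegree_eq_card_roots, natDegree_map,
      hf.natDegree_map, hdeg] at h1
    exact h1.symm
  refine galL U hU G V S (algebraMap A k ϖ) hϖ0 hpn htame ℓ hℓ θ e' cl htr hcard
    (fun i j => aeval (θ i) (P j)) ?_ ?_ Q q hQ ?_ x hx n hn hX
    (algebraMap k (algebraicClosure k Ω) a) (S.algebraMap_mem _) m hm hcu ?_
  · intro i j
    have h1 : aeval ((⟨θ i, hθS i⟩ : S) : algebraicClosure k Ω) (P j) =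
        ((aeval (⟨θ i, hθS i⟩ : S) (P j) : S) : algebraicClosure k Ω) :=
      IntermediateField.aeval_coe S (⟨θ i, hθS i⟩ : S) (P j)
    change aeval ((⟨θ i, hθS i⟩ : S) : algebraicClosure k Ω) (P j) ∈ S
    rw [h1]
    exact Subtype.mem _
  · intro φ π hφ i j
    have h1 := aeval_algHom_apply (φ : algebraicClosure k Ω →ₐ[k] algebraicClosure k Ω) (θ i) (P j)
    have h2 : (φ : algebraicClosure k Ω →ₐ[k] algebraicClosure k Ω) (θ i) = θ (π i) := hφ.2.2.1 i
    rw [h2] at h1
    exact h1.symm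
  · intro i i' hii
    exact hnd (θ i) (θ i') (hθroot i) (hθroot i') (fun h => hii (hθinj h))
  · change algebraMap k Ω a * _ = _
    rw [hxy, hr, Multiset.map_map]
    change ∏ i, _ = _
    refine Finset.prod_congr rfl fun i _ => Finset.sum_congr rfl fun j _ => ?_
    congr 1
    exact aeval_algebraMap_apply Ω (θ i) (P j)

/-- **The local theorem**, points. -/
theorem local_point {kb : Type w} [Field kb] [Algebra k kb]
    [IsAlgClosed kb] [Algebra.IsAlgebraic k kb]
    (P : Fin 3 → k[X]) (Q : MvPolynomial (Fin 3) k) (q : ℕ) (hQ : Q.IsHomogeneous q)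
    (hnd : ∀ θ θ' : kb, aeval θ (f.map (algebraMap A k)) = 0 →
      aeval θ' (f.map (algebraMap A k)) = 0 → θ ≠ θ' →
      MvPolynomial.eval₂ (algebraMap k kb)
        ((fun j => aeval θ (P j)) ⨯₃ (fun j => aeval θ' (P j))) Q ≠ 0)
    (x : Fin 3 → k) (hx : x ≠ 0) (n : ℕ) (hn : 0 < n)
    (hxy : algebraMap k kb a * algebraMap k kb (MvPolynomial.eval₂ (RingHom.id k) x Q) ^ (n * ℓ) =
      (((f.map (algebraMap A k)).map (algebraMap k kb)).roots.map fun θ =>
        ∑ j, aeval θ (P j) * algebraMap k kb (x j)).prod) : False := by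
  classical
  let _ : Algebra A kb := ((algebraMap k kb).comp (algebraMap A k)).toAlgebra
  have hst : IsScalarTower A k kb := IsScalarTower.of_algebraMap_eq (fun _ => rfl)
  have hcz : CharZero kb := charZero_of_injective_algebraMap (algebraMap k kb).injective
  obtain ⟨V, S, X, _, θ, e', cl, hϖ0, hpn, htame, hθS, hθinj, hθroot, htr, hcard, hcu, hroots⟩ :=
    lin_data (kb := kb) ℓ f hf hs hσ ϖ hϖ a t ht m ha
  have hr := hroots (RingHom.id kb)
  rw [RingHom.id_comp] at hr
  refine galLpt V S (algebraMap A k ϖ) hϖ0 hpn htame ℓ hℓ θ e' cl htr hcard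
    (fun i j => aeval (θ i) (P j)) ?_ ?_ Q q hQ ?_ x hx n hn
    (algebraMap k kb a) (S.algebraMap_mem _) m hm hcu ?_
  · intro i j
    have h1 : aeval ((⟨θ i, hθS i⟩ : S) : kb) (P j) =
        ((aeval (⟨θ i, hθS i⟩ : S) (P j) : S) : kb) :=
      IntermediateField.aeval_coe S (⟨θ i, hθS i⟩ : S) (P j)
    change aeval ((⟨θ i, hθS i⟩ : S) : kb) (P j) ∈ S
    rw [h1]
    exact Subtype.mem _
  · intro φ π hφ i j
    have h1 := aeval_algHom_apply (φ : kb →ₐ[k] kb) (θ i) (P j)
    have h2 : (φ : kb →ₐ[k] kb) (θ i) = θ (π i) := hφ.2.2.1 i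
    rw [h2] at h1
    exact h1.symm
  · intro i i' hii
    exact hnd (θ i) (θ i') (hθroot i) (hθroot i') (fun h => hii (hθinj h))
  · rw [hxy, hr, Multiset.map_map]
    rfl

end

end Pool.Agent.TH377.NC
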