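import Pool.Agent.TH377.Hyp.NF
import Pool.Agent.TH377.NC.Local
import Pool.Agent.TH120.Sec.Prime
import Pool.Agent.TH120.Sec.Spec

/-!
# The data at a place of an extension whose degree is not divisible by `D`
-/

set_option autoImplicit false
set_option maxHeartbeats 400000

namespace Pool.Agent.TH377.NC

open Polynomial NumberField IsDedekindDomain Pool.Agent.TH377.Dyn Pool.Agent.TH377.Hyp
open Pool.Agent.TH377.LocG Pool.Agent.TH120.Sec

universe u v

lemma exists_prime_lt (D n : ℕ) (hD : D ≠ 0) (hn : n ≠ 0) (h : ¬ D ∣ n) :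
    ∃ l : ℕ, l.Prime ∧ padicValNat l n < padicValNat l D := by
  by_contra h1
  apply h
  rw [← Nat.factorization_prime_le_iff_dvd hD hn]
  intro l hl
  by_contra h2
  rw [not_le] at h2
  apply h1
  refine ⟨l, hl, ?_⟩
  rwa [Nat.factorization_def _ hl, Nat.factorization_def _ hl] at h2

/-- the arithmetic of the divisibilities -/
lemma arith (l D e f r a : ℕ) (hl : l.Prime) (hD : D ≠ 0) (hf : f ≠ 0)
    (hr : r ≠ 0) (haD : a < padicValNat l D) (hef : padicValNat l e + padicValNat l f ≤ a)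
    (h : Nat.gcd 2 D * D ∣ f * r) :
    Nat.gcd 2 (l ^ (padicValNat l e + 1)) * l ^ (padicValNat l e + 1) ∣ r := by
  have hfact : Fact l.Prime := ⟨hl⟩
  by_cases hl2 : l = 2
  · subst hl2
    have h1 : Nat.gcd 2 (2 ^ (padicValNat 2 e + 1)) = 2 :=
      Nat.gcd_eq_left (dvd_pow_self 2 (by omega))
    have h2 : 2 ∣ D := by
      have h3 : 2 ^ 1 ∣ D := (padicValNat_dvd_iff_le hD).2 (by omega)
      simpa using h3
    have h3 : Nat.gcd 2 D = 2 := Nat.gcd_eq_left h2
    rw [h1, ← pow_succ']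
    rw [h3] at h
    have h4 : padicValNat 2 (2 * D) ≤ padicValNat 2 (f * r) :=
      (padicValNat_dvd_iff_le (mul_ne_zero hf hr)).1 (pow_padicValNat_dvd.trans h)
    rw [padicValNat.mul two_ne_zero hD, padicValNat.mul hf hr, padicValNat_self] at h4
    exact (padicValNat_dvd_iff_le hr).2 (by omega)
  · have h1 : Nat.gcd 2 (l ^ (padicValNat l e + 1)) = 1 := by
      refine Nat.Coprime.pow_right _ ?_
      exact (Nat.coprime_primes Nat.prime_two hl).2 (Ne.symm hl2)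
    rw [h1, one_mul]
    have h4 : padicValNat l D ≤ padicValNat l (f * r) :=
      (padicValNat_dvd_iff_le (mul_ne_zero hf hr)).1
        (pow_padicValNat_dvd.trans ((Dvd.intro_left _ rfl).trans h))
    rw [padicValNat.mul hf hr] at h4
    exact (padicValNat_dvd_iff_le hr).2 (by omega)

variable {K : Type u} {L : Type v} [Field K] [NumberField K] [Field L] [NumberField L]
  [Algebra K L]

/-- the power of `w` in an element of `v ∖ v²` -/
lemma mem_pow_iff (v : HeightOneSpectrum (𝓞 K)) (q : v.asIdeal.primesOver (𝓞 L)) (b : 𝓞 K)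
    (h1 : b ∈ v.asIdeal) (h2 : b ∉ v.asIdeal ^ 2) (i : ℕ) :
    algebraMap (𝓞 K) (𝓞 L) b ∈ (ovr v q).asIdeal ^ i ↔ i ≤ q.1.ramificationIdx (𝓞 K) := by
  have hpm : v.asIdeal.IsMaximal := v.isMaximal
  have e1 : v.asIdeal.ramificationIdx' (ovr v q).asIdeal = q.1.ramificationIdx (𝓞 K) := by
    exact Ideal.ramificationIdx'_eq_ramificationIdx _ _ v.ne_bot
  have e2 := HeightOneSpectrum.valuation_liesOver L v (ovr v q) (algebraMap (𝓞 K) K b)
  rw [← IsScalarTower.algebraMap_apply (𝓞 K) K L, e1, val_unif v b h1 h2,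
    IsScalarTower.algebraMap_apply (𝓞 K) (𝓞 L) L, HeightOneSpectrum.valuation_of_algebraMap,
    ← WithZero.exp_nsmul] at e2
  rw [← HeightOneSpectrum.intValuation_le_pow_iff_mem, ← e2, WithZero.exp_le_exp, nsmul_eq_mul,
    mul_neg, mul_one, neg_le_neg_iff, Nat.cast_le]

/-- the data at a place of `L` -/
theorem nf_data (v : HeightOneSpectrum (𝓞 K)) (D : ℕ) (hD : D ≠ 0)
    (hn : ¬ D ∣ Module.finrank K L) (g : (𝓞 K)[X]) (hg : g.Monic)
    (hs : (g.map (Ideal.Quotient.mk v.asIdeal)).Separable)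
    (hcyc : ∀ n : ℕ, ¬ Nat.gcd 2 D * D ∣ n → IsCoprime (X ^ (Ideal.absNorm v.asIdeal ^ n) - X)
      (g.map (Ideal.Quotient.mk v.asIdeal)))
    (b : 𝓞 K) (hb : b ∈ v.asIdeal) (hb' : b ∉ v.asIdeal ^ 2) :
    ∃ ℓ : ℕ, 0 < ℓ ∧ ℓ ∣ D ∧ ∃ (A : Type v) (_ : CommRing A) (_ : IsDomain A)
      (_ : IsDiscreteValuationRing A) (_ : Algebra A L) (_ : IsFractionRing A L) (f : A[X]),
      f.Monic ∧ f.map (algebraMap A L) = g.map (algebraMap (𝓞 K) L) ∧
      (f.map (IsLocalRing.residue A)).Separable ∧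
      FactorDiv (Nat.gcd 2 ℓ * ℓ) (f.map (IsLocalRing.residue A)) ∧
      ∃ (ϖ t : A) (m : ℤ), Irreducible ϖ ∧ IsUnit t ∧ ¬ (ℓ : ℤ) ∣ m ∧
        algebraMap (𝓞 K) L b = algebraMap A L t * algebraMap A L ϖ ^ m := by
  classical
  have hn0 : Module.finrank K L ≠ 0 := by
    have : 0 < Module.finrank K L := Module.finrank_pos
    exact this.ne'
  obtain ⟨l, hl, hlt⟩ := exists_prime_lt D _ hD hn0 hn
  have hfact : Fact l.Prime := ⟨hl⟩
  set a := padicValNat l (Module.finrank K L) with ha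
  obtain ⟨q, hq⟩ : ∃ q : v.asIdeal.primesOver (𝓞 L),
      ¬ l ^ (a + 1) ∣ q.1.ramificationIdx (𝓞 K) * q.1.inertiaDeg (𝓞 K) := by
    by_contra h1
    rw [not_exists] at h1
    have h2 : l ^ (a + 1) ∣ Module.finrank K L := by
      rw [← sum_ef L v]
      exact Finset.dvd_sum fun q _ => not_not.1 (h1 q)
    exact pow_succ_padicValNat_not_dvd hn0 h2
  set e := q.1.ramificationIdx (𝓞 K) with he
  set fd := q.1.inertiaDeg (𝓞 K) with hfd
  have he0 : e ≠ 0 := by
    intro h0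
    apply hq
    rw [h0, zero_mul]
    exact dvd_zero _
  have hf0 : fd ≠ 0 := by
    intro h0
    apply hq
    rw [h0, mul_zero]
    exact dvd_zero _
  have hef : padicValNat l e + padicValNat l fd ≤ a := by
    by_contra h1
    rw [not_le] at h1
    apply hq
    rw [padicValNat_dvd_iff_le (mul_ne_zero he0 hf0), padicValNat.mul he0 hf0]
    exact h1
  refine ⟨l ^ (padicValNat l e + 1), pow_pos hl.pos _, ?_, ?_⟩
  · exact (padicValNat_dvd_iff_le hD).2 (by omega)
  obtain ⟨A, iA1, iA2, iA3, iA4, j, ε, hfin, hfr, hjK, hjr, hju, hbn⟩ := local_ring (ovr v q)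
  have hmax : v.asIdeal.IsMaximal := v.isMaximal
  have hmaxw : (ovr v q).asIdeal.IsMaximal := (ovr v q).isMaximal
  let _ : Field (𝓞 K ⧸ v.asIdeal) := Ideal.Quotient.field _
  let _ : Field (𝓞 L ⧸ (ovr v q).asIdeal) := Ideal.Quotient.field _
  set ι : (𝓞 K ⧸ v.asIdeal) →+* (𝓞 L ⧸ (ovr v q).asIdeal) :=
    algebraMap (𝓞 K ⧸ v.asIdeal) (𝓞 L ⧸ (ovr v q).asIdeal) with hι
  set i : (𝓞 K ⧸ v.asIdeal) →+* IsLocalRing.ResidueField A :=
    (ε : (𝓞 L ⧸ (ovr v q).asIdeal) →+* IsLocalRing.ResidueField A).comp ι with hi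
  have hmap : ((g.map (algebraMap (𝓞 K) (𝓞 L))).map j).map (IsLocalRing.residue A) =
      (g.map (Ideal.Quotient.mk v.asIdeal)).map i := by
    rw [Polynomial.map_map, Polynomial.map_map, Polynomial.map_map]
    congr 1
    rw [hjr]
    rfl
  have hcard : Nat.card (IsLocalRing.ResidueField A) = Ideal.absNorm v.asIdeal ^ fd := by
    have h1 : fd = Module.finrank (𝓞 K ⧸ v.asIdeal) (𝓞 L ⧸ (ovr v q).asIdeal) :=
      Ideal.inertiaDeg_eq_of_isMaximal v.asIdeal (ovr v q).asIdeal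
    have hfinv : Finite (𝓞 K ⧸ v.asIdeal) := Ideal.finiteQuotientOfFreeOfNeBot _ v.ne_bot
    have hfinw : Finite (𝓞 L ⧸ (ovr v q).asIdeal) :=
      Ideal.finiteQuotientOfFreeOfNeBot _ (ovr v q).ne_bot
    rw [← Nat.card_congr ε.toEquiv, h1, Ideal.absNorm_apply, Submodule.cardQuot_apply]
    exact Module.natCard_eq_pow_finrank
  refine ⟨A, iA1, iA2, iA3, iA4, hfr, (g.map (algebraMap (𝓞 K) (𝓞 L))).map j,
    (hg.map _).map _, ?_, ?_, ?_, ?_⟩
  · rw [Polynomial.map_map, Polynomial.map_map, hjK]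
    congr 1
  · rw [hmap]
    exact hs.map
  · rw [hmap]
    intro h hirr hdvd
    have hr0 : h.natDegree ≠ 0 := hirr.natDegree_pos.ne'
    refine arith l D e fd h.natDegree a hl hD hf0 hr0 hlt hef ?_
    by_contra hN
    have h1 := (hcyc _ hN).map (Polynomial.mapRingHom i)
    rw [coe_mapRingHom, Polynomial.map_sub, Polynomial.map_pow, map_X] at h1
    have h2 : h ∣ X ^ Nat.card (IsLocalRing.ResidueField A) ^ h.natDegree - X :=
      hirr.natDegree_dvd_iff_dvd_X_pow_card_pow_sub_X.1 dvd_rfl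
    rw [hcard, ← pow_mul] at h2
    exact hirr.not_isUnit (h1.isUnit_of_dvd' h2 hdvd)
  · obtain ⟨ϖ, t, hϖ, ht, hb2⟩ := hbn (algebraMap (𝓞 K) (𝓞 L) b) e
      ((mem_pow_iff v q b hb hb' e).2 le_rfl)
      (fun h => by
        have := (mem_pow_iff v q b hb hb' (e + 1)).1 h
        omega)
    refine ⟨ϖ, t, e, hϖ, ht, ?_, ?_⟩
    · rw [Int.natCast_dvd_natCast, padicValNat_dvd_iff_le he0]
      omega
    · rw [← hb2, ← IsScalarTower.algebraMap_apply]

end Pool.Agent.TH377.NC
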