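import Pool.Agent.TH377.NC.Gen
import Pool.Agent.TH377.Hyp.Smooth

/-!
# The localisation at a prime modulo which a polynomial is irreducible
-/

set_option autoImplicit false
set_option maxHeartbeats 400000
set_option linter.unusedSectionVars false

namespace Pool.Agent.TH377.NC

open Polynomial IsDedekindDomain NumberField Pool.Agent.TH377.LocG

universe u x

/-- data over the local ring of a number field -/
theorem vary {K : Type u} [Field K] [NumberField K] (v : HeightOneSpectrum (𝓞 K)) (g : (𝓞 K)[X])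
    (d : ℕ) (hd : g.natDegree = d) (hlc : g.leadingCoeff ∉ v.asIdeal)
    (hirr : Irreducible (g.map (Ideal.Quotient.mk v.asIdeal))) (a : 𝓞 K) (h1 : a ∈ v.asIdeal)
    (h2 : a ∉ v.asIdeal ^ 2) :
    ∃ (R : Type u) (_ : CommRing R) (_ : IsDomain R) (_ : IsDiscreteValuationRing R)
      (_ : Algebra R K) (_ : IsFractionRing R K) (f : R[X]) (ϖ t : R), f.Monic ∧
      f.map (algebraMap R K) = g.map (algebraMap (𝓞 K) K) *
        C (g.map (algebraMap (𝓞 K) K)).leadingCoeff⁻¹ ∧
      (f.map (IsLocalRing.residue R)).Separable ∧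
      (∀ N, N ∣ d → FactorDiv N (f.map (IsLocalRing.residue R))) ∧ Irreducible ϖ ∧ IsUnit t ∧
      algebraMap (𝓞 K) K a = algebraMap R K t * algebraMap R K ϖ ^ (1 : ℤ) := by
  have hvm : v.asIdeal.IsMaximal := v.isMaximal
  have hfinq : Finite (𝓞 K ⧸ v.asIdeal) := Ideal.finiteQuotientOfFreeOfNeBot _ v.ne_bot
  obtain ⟨R, i1, i2, i3, i4, j, ε, hfr, hjK, hjr, hbn⟩ :=
    local_ringS (S := 𝓞 K) (L := K) v.asIdeal v.isPrime v.ne_bot
  have ha0 : a ≠ 0 := by
    rintro rfl
    exact h2 (zero_mem _)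
  obtain ⟨ϖ, t, n, hϖ, ht, hb2, hb3⟩ := hbn a ha0
  have hn : n = 1 := by
    have e1 := (hb3 1).1 (by rwa [pow_one])
    have e2 : ¬ 2 ≤ n := fun h => h2 ((hb3 2).2 h)
    omega
  have hres : ∀ c : 𝓞 K, IsLocalRing.residue R (j c) = ε (Ideal.Quotient.mk v.asIdeal c) :=
    fun c => RingHom.congr_fun hjr c
  have hu : IsUnit (j g.leadingCoeff) := by
    by_contra h
    have e1 : IsLocalRing.residue R (j g.leadingCoeff) = 0 :=
      (IsLocalRing.residue_eq_zero_iff _).2 ((IsLocalRing.mem_maximalIdeal _).2 h)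
    rw [hres, map_eq_zero_iff ε ε.injective, Ideal.Quotient.eq_zero_iff_mem] at e1
    exact hlc e1
  have hlcj : (g.map j).leadingCoeff = j g.leadingCoeff :=
    leadingCoeff_map_of_leadingCoeff_ne_zero j hu.ne_zero
  have hdj : (g.map j).natDegree = d := by
    rw [natDegree_map_of_leadingCoeff_ne_zero j hu.ne_zero, hd]
  obtain ⟨w, hw⟩ := hu
  set f : R[X] := C ((w⁻¹ : Rˣ) : R) * g.map j with hf
  have hfm : f.Monic := by
    refine monic_C_mul_of_mul_leadingCoeff_eq_one ?_
    rw [hlcj, ← hw, Units.inv_mul]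
  have hfd : f.natDegree = d := by
    rw [hf, natDegree_C_mul_of_mul_ne_zero, hdj]
    rw [hlcj, ← hw, Units.inv_mul]
    exact one_ne_zero
  have hPd : (f.map (IsLocalRing.residue R)).natDegree = d := by
    rw [hfm.natDegree_map, hfd]
  have hPi : Irreducible (f.map (IsLocalRing.residue R)) := by
    rw [hf, Polynomial.map_mul, map_C]
    have e1 : IsUnit (C (IsLocalRing.residue R ((w⁻¹ : Rˣ) : R)) :
        (IsLocalRing.ResidueField R)[X]) :=
      ((Units.isUnit w⁻¹).map (IsLocalRing.residue R)).map C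
    rw [irreducible_isUnit_mul e1]
    have e2 : (g.map j).map (IsLocalRing.residue R) =
        (g.map (Ideal.Quotient.mk v.asIdeal)).map
          (ε : (𝓞 K ⧸ v.asIdeal) →+* IsLocalRing.ResidueField R) := by
      rw [Polynomial.map_map, Polynomial.map_map, hjr]
    rw [e2]
    exact (MulEquiv.irreducible_iff (Polynomial.mapEquiv ε)).2 hirr
  have hfin : Finite (IsLocalRing.ResidueField R) := Finite.of_equiv _ ε.toEquiv
  have hlcK : (g.map (algebraMap (𝓞 K) K)).leadingCoeff = algebraMap (𝓞 K) K g.leadingCoeff :=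
    leadingCoeff_map_of_injective (FaithfulSMul.algebraMap_injective (𝓞 K) K) g
  refine ⟨R, i1, i2, i3, i4, hfr, f, ϖ, t, hfm, ?_, ?_, ?_, hϖ, ht, ?_⟩
  · rw [hf, Polynomial.map_mul, map_C, Polynomial.map_map, hjK, mul_comm, hlcK]
    congr 2
    have e1 : algebraMap R K ((w⁻¹ : Rˣ) : R) * algebraMap (𝓞 K) K g.leadingCoeff = 1 := by
      have e2 : algebraMap (𝓞 K) K g.leadingCoeff = algebraMap R K (w : R) := by
        rw [hw, ← hjK]
        rfl
      rw [e2, ← map_mul, Units.inv_mul, map_one]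
    exact eq_inv_of_mul_eq_one_left e1
  · exact PerfectField.separable_of_irreducible hPi
  · intro N hN h hirrh hdvd
    have e1 := hirrh.associated_of_dvd hPi hdvd
    rw [natDegree_eq_of_degree_eq (degree_eq_degree_of_associated e1), hPd]
    exact hN
  · rw [hb2, hn, pow_one, zpow_one]

/-- a power basis given by a root -/
theorem pb_of_root {K : Type u} [Field K] {E : Type x} [Field E] [Algebra K E]
    [FiniteDimensional K E] (θ : E) (hθ : Algebra.adjoin K {θ} = ⊤) (G : K[X])
    (hG : Irreducible G) (hGθ : aeval θ G = 0) :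
    ∃ pb : PowerBasis K E, minpoly K pb.gen = G * C G.leadingCoeff⁻¹ ∧
      Module.finrank K E = G.natDegree := by
  have hint : IsIntegral K θ := Algebra.IsIntegral.isIntegral θ
  have h1 := minpoly.eq_of_irreducible hG hGθ
  refine ⟨PowerBasis.ofAdjoinEqTop hint hθ, ?_, ?_⟩
  · rw [PowerBasis.ofAdjoinEqTop_gen, h1]
  · rw [(PowerBasis.ofAdjoinEqTop hint hθ).finrank, PowerBasis.ofAdjoinEqTop_dim, ← h1,
      natDegree_mul_C (inv_ne_zero (leadingCoeff_ne_zero.2 hG.ne_zero))]

end Pool.Agent.TH377.NC
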